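import Pool.Agent.MWBN.Stmts
import Pool.Agent.Helper39_MWS.CbLem

/-!
# Squad MWBN, row TWN (helper46): a visible difference gives the edge
-/

set_option autoImplicit false

namespace Pool.Agent.MWBN.H46

open Pool.Agent.Helper14_MV Pool.Agent.Helper2_MV Pool.Agent.MVO Pool.Agent.MWL Pool.Agent.MWS
open Pool.Agent.MWS.H39

variable {V : ℕ → (ℕ → ℕ) → (ℕ → ℕ) → ℕ → Prop} {β : FIC} {n k i : ℕ} {a b : ℕ → ℕ}

theorem count_bl (p q : ℕ) (e : Bool) : (bl p q e).count 0 = p ∧ (bl p q e).count 1 = q := by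
  unfold bl
  cases e
  · simp [List.count_replicate]
  · simp [List.count_replicate]

theorem cb_count0 {l : List ℕ} (hl : l.count 0 = 2) (hai : a i ≠ 0) (e : ℕ → Bool) (j : ℕ) :
    (cb a b e i l j).count 0 = hv (a j) := by
  by_cases hj : j = i
  · subst hj
    rw [cb_self, hl, hv, if_neg hai]
  · rw [cb_ne hj, (count_bl _ _ _).1]

theorem cb_count1 {l : List ℕ} (hl : l.count 1 = 2) (hbi : b i ≠ 0) (e : ℕ → Bool) (j : ℕ) :
    (cb a b e i l j).count 1 = hv (b j) := by
  by_cases hj : j = i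
  · subst hj
    rw [cb_self, hl, hv, if_neg hbi]
  · rw [cb_ne hj, (count_bl _ _ _).2]

/-- a two letter family with residues `2` is given by its letters and the two facts in block `i` -/
theorem canon (hnf : NfnStmt) (hV : VisOk V) (hC : ClVn n V β) (hvv : V k a b i)
    {C : ℕ → List ℕ} (hCo : OkB k C) (hC2 : Two01 k C)
    (hm : ∀ j ≤ k, (0 ∈ C j ↔ a j ≠ 0) ∧ (1 ∈ C j ↔ b j ≠ 0))
    (hc : ∀ j ≤ k, (a j ≠ 0 → (C j).count 0 ≡ 2 [MOD n]) ∧ (b j ≠ 0 → (C j).count 1 ≡ 2 [MOD n]))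
    {l : List ℕ} (hl : LL l) (hl0 : l.count 0 = 2) (hl1 : l.count 1 = 2)
    (h1 : Bef (C i) 0 1 ↔ Bef l 0 1) (h2 : Bef (C i) 1 0 ↔ Bef l 1 0) (e : ℕ → Bool) :
    RR β (asm k C) (asm k (cb a b e i l)) := by
  obtain ⟨hi, hai, hbi⟩ := hV.mem _ _ _ _ hvv
  refine hnf n V β β hV hC (fic_le_refl β) k _ _ hCo (cb_ok hl hi) ?_ ?_
  · intro j hj c
    by_cases hc0 : c = 0
    · subst hc0
      refine ⟨?_, ?_⟩
      · rw [cb_mem0 hl hai]
        exact (hm j hj).1
      · rw [cb_count0 hl0 hai, hv]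
        by_cases haj : a j = 0
        · have h3 : (C j).count 0 = 0 := by
            rw [List.count_eq_zero]
            exact fun h => (hm j hj).1.1 h haj
          rw [if_pos haj, h3]
        · rw [if_neg haj]
          exact (hc j hj).1 haj
    · by_cases hc1 : c = 1
      · subst hc1
        refine ⟨?_, ?_⟩
        · rw [cb_mem1 hl hbi]
          exact (hm j hj).2
        · rw [cb_count1 hl1 hbi, hv]
          by_cases hbj : b j = 0
          · have h3 : (C j).count 1 = 0 := by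
              rw [List.count_eq_zero]
              exact fun h => (hm j hj).2.1 h hbj
            rw [if_pos hbj, h3]
          · rw [if_neg hbj]
            exact (hc j hj).2 hbj
      · have h3 : c ∉ C j := fun h => by
          rcases hC2 j hj c h with h | h
          · exact hc0 h
          · exact hc1 h
        have h4 : c ∉ cb a b e i l j := fun h => by
          rcases cb_mem hl h with h | h
          · exact hc0 h
          · exact hc1 h
        refine ⟨iff_of_false h3 h4, ?_⟩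
        rw [List.count_eq_zero.2 h3, List.count_eq_zero.2 h4]
  · intro x y i' hxy h3 h4
    obtain ⟨rfl, h5⟩ := vis_two hV hvv hC2 hm hxy h3
    rcases h5 with ⟨rfl, rfl⟩ | ⟨rfl, rfl⟩
    · exact absurd (by rw [cb_self]; exact h1) h4
    · exact absurd (by rw [cb_self]; exact h2) h4

/-- the number of inserted letters -/
def ex (n m : ℕ) : ℕ := if m = 0 then 0 else (n - 1) * m + 2

theorem ex_zero : ex n 0 = 0 := by simp [ex]

theorem ex_pos {m : ℕ} (hm : m ≠ 0) : ex n m ≠ 0 := by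
  unfold ex
  rw [if_neg hm]
  omega

theorem ex_mod (hn : 1 ≤ n) {m c : ℕ} (hm : m ≠ 0) (hc : c ≡ m [MOD n]) :
    ex n m + c ≡ 2 [MOD n] := by
  obtain ⟨r, rfl⟩ : ∃ r, n = r + 1 := ⟨n - 1, by omega⟩
  have h1 : ex (r + 1) m + c ≡ ex (r + 1) m + m [MOD (r + 1)] := Nat.ModEq.add_left _ hc
  refine h1.trans ?_
  have h2 : ex (r + 1) m + m = (r + 1) * m + 2 := by
    unfold ex
    rw [if_neg hm]
    simp only [Nat.add_sub_cancel]
    ring
  rw [h2]
  have h3 : (r + 1) * m ≡ 0 [MOD (r + 1)] := by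
    rw [Nat.modEq_zero_iff_dvd]
    exact dvd_mul_right _ _
  exact h3.add_right 2

/-- the words inserted at the beginning of a block -/
def pp (n i : ℕ) (a : ℕ → ℕ) (j : ℕ) : List ℕ :=
  if j = i then List.replicate (ex n (a j)) 0 else []

/-- the words inserted at the end of a block -/
def qq (n i : ℕ) (a b : ℕ → ℕ) (j : ℕ) : List ℕ :=
  (if j = i then [] else List.replicate (ex n (a j)) 0) ++ List.replicate (ex n (b j)) 1

/-- the family with the insertions -/
def fam (n i : ℕ) (a b : ℕ → ℕ) (B : ℕ → List ℕ) : ℕ → List ℕ :=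
  fun j => pp n i a j ++ B j ++ qq n i a b j

theorem fam_self (B : ℕ → List ℕ) :
    fam n i a b B i = List.replicate (ex n (a i)) 0 ++ B i ++ List.replicate (ex n (b i)) 1 := by
  simp [fam, pp, qq]

theorem fam_count0 (B : ℕ → List ℕ) (j : ℕ) :
    (fam n i a b B j).count 0 = ex n (a j) + (B j).count 0 := by
  unfold fam pp qq
  by_cases hj : j = i
  · simp [hj, List.count_append, List.count_replicate]
  · simp only [hj, if_false, List.nil_append, List.count_append, List.count_replicate]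
    simp
    omega

theorem fam_count1 (B : ℕ → List ℕ) (j : ℕ) :
    (fam n i a b B j).count 1 = ex n (b j) + (B j).count 1 := by
  unfold fam pp qq
  by_cases hj : j = i
  · simp [hj, List.count_append, List.count_replicate]
    omega
  · simp only [hj, if_false, List.nil_append, List.count_append, List.count_replicate]
    simp
    omega

theorem fam_mem {B : ℕ → List ℕ} {j : ℕ} (h0 : 0 ∈ B j ↔ a j ≠ 0) (h1 : 1 ∈ B j ↔ b j ≠ 0)
    (c : ℕ) : c ∈ fam n i a b B j ↔ c ∈ B j := by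
  constructor
  · intro h
    by_cases hc0 : c = 0
    · subst hc0
      rw [h0]
      intro ha
      have h2 : (fam n i a b B j).count 0 = 0 := by
        rw [fam_count0, ha, ex_zero, List.count_eq_zero.2 (fun h => h0.1 h ha)]
      exact List.count_eq_zero.1 h2 h
    · by_cases hc1 : c = 1
      · subst hc1
        rw [h1]
        intro hb
        have h2 : (fam n i a b B j).count 1 = 0 := by
          rw [fam_count1, hb, ex_zero, List.count_eq_zero.2 (fun h => h1.1 h hb)]
        exact List.count_eq_zero.1 h2 h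
      · unfold fam pp qq at h
        simp only [List.mem_append, List.mem_replicate] at h
        rcases h with (h | h) | h | h
        · split_ifs at h
          · exact absurd (List.eq_of_mem_replicate h) hc0
          · exact absurd h (List.not_mem_nil)
        · exact h
        · split_ifs at h
          · exact absurd h (List.not_mem_nil)
          · exact absurd (List.eq_of_mem_replicate h) hc0
        · exact absurd h.2 hc1
  · intro h
    unfold fam
    simp [h]

theorem fam_ok {B : ℕ → List ℕ} (hB : OkB k B)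
    (hm : ∀ j ≤ k, (0 ∈ B j ↔ a j ≠ 0) ∧ (1 ∈ B j ↔ b j ≠ 0)) : OkB k (fam n i a b B) := by
  refine ⟨fun j hj c hc => hB.ok j hj c ((fam_mem (hm j hj).1 (hm j hj).2 c).1 hc),
    fun j hj c hc => ?_⟩
  have h1 := hB.ml j hj c ((fam_mem (hm j hj).1 (hm j hj).2 c).1 hc)
  refine le_trans h1 ?_
  unfold deg
  refine Finset.sum_le_sum fun m _ => ?_
  unfold fam
  rw [List.count_append, List.count_append]
  omega

theorem fam_bef {B : ℕ → List ℕ} : Bef (fam n i a b B i) 0 1 ↔ Bef (B i) 0 1 := by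
  rw [fam_self, bef_append, bef_append]
  have h0 : (0 : ℕ) ∉ List.replicate (ex n (b i)) 1 := fun h =>
    absurd (List.eq_of_mem_replicate h) (by omega)
  have h1 : (1 : ℕ) ∉ List.replicate (ex n (a i)) 0 := fun h =>
    absurd (List.eq_of_mem_replicate h) (by omega)
  constructor
  · exact fun h => h.1.2.1
  · exact fun h => ⟨⟨bef_of_not_mem h1, h, Or.inl h1⟩, bef_of_not_mem' h0, Or.inr h0⟩

theorem fam_bef' {B : ℕ → List ℕ} (hai : a i ≠ 0) (hbi : b i ≠ 0) :
    ¬ Bef (fam n i a b B i) 1 0 := by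
  rw [fam_self, bef_append]
  rintro ⟨-, -, h | h⟩
  · exact h (List.mem_append_left _ (List.mem_replicate.2 ⟨ex_pos hai, rfl⟩))
  · exact h (List.mem_replicate.2 ⟨ex_pos hbi, rfl⟩)

/-- row TWN -/
theorem twn (hnf : NfnStmt) : TwnStmt := by
  intro n V β θ hV hC hθ k B B' hB hB' h2 h2' hS i hvv hr hb hb' e
  obtain ⟨hi, hai, hbi⟩ := hV.mem _ _ _ _ hvv
  have hm : ∀ j ≤ k, (0 ∈ B j ↔ ty B 0 j ≠ 0) ∧ (1 ∈ B j ↔ ty B 1 j ≠ 0) := by
    intro j _
    rw [ne_eq, ne_eq, ty_zero, ty_zero, not_not, not_not]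
    exact ⟨Iff.rfl, Iff.rfl⟩
  have hm' : ∀ j ≤ k, (0 ∈ B' j ↔ ty B 0 j ≠ 0) ∧ (1 ∈ B' j ↔ ty B 1 j ≠ 0) := by
    intro j hj
    rw [← (hS j hj 0).1, ← (hS j hj 1).1]
    exact hm j hj
  have key : ∀ D : ℕ → List ℕ, OkB k D → Two01 k D →
      (∀ j ≤ k, (0 ∈ D j ↔ ty B 0 j ≠ 0) ∧ (1 ∈ D j ↔ ty B 1 j ≠ 0)) →
      (∀ j ≤ k, (D j).count 0 ≡ ty B 0 j [MOD n] ∧ (D j).count 1 ≡ ty B 1 j [MOD n]) →
      ∀ l : List ℕ, LL l → l.count 0 = 2 → l.count 1 = 2 → (Bef (D i) 0 1 ↔ Bef l 0 1) →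
        ¬ Bef l 1 0 →
        RR β (asm k (fam n i (ty B 0) (ty B 1) D)) (asm k (cb (ty B 0) (ty B 1) e i l)) := by
    intro D hD hD2 hmD hcD l hl hl0 hl1 hf hf'
    refine canon hnf hV hC hvv (fam_ok hD hmD) ?_ ?_ ?_ hl hl0 hl1 ?_ ?_ e
    · intro j hj c hc
      exact hD2 j hj c ((fam_mem (hmD j hj).1 (hmD j hj).2 c).1 hc)
    · intro j hj
      rw [fam_mem (hmD j hj).1 (hmD j hj).2, fam_mem (hmD j hj).1 (hmD j hj).2]
      exact hmD j hj
    · intro j hj
      rw [fam_count0, fam_count1]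
      exact ⟨fun h => ex_mod hC.pos h (hcD j hj).1, fun h => ex_mod hC.pos h (hcD j hj).2⟩
    · rw [fam_bef]
      exact hf
    · exact iff_of_false (fam_bef' hai hbi) hf'
  have c1 := key B hB h2 hm (fun j _ => ⟨Nat.ModEq.refl _, Nat.ModEq.refl _⟩) _ ll_a
    (by decide) (by decide) (iff_of_true hb bef_a) bef_a'
  have c2 := key B' hB' h2' hm' (fun j hj => ⟨(hS j hj 0).2.symm, (hS j hj 1).2.symm⟩) _ ll_b
    (by decide) (by decide) (iff_of_false hb' bef_b) bef_b'
  have hr1 : RR θ (asm k (fam n i (ty B 0) (ty B 1) B)) (asm k (fam n i (ty B 0) (ty B 1) B')) :=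
    rr_ins' θ (pp n i (ty B 0)) (qq n i (ty B 0) (ty B 1)) hB.ok hB'.ok hr
  exact θ.trans (hθ _ _ (RR.symm c1)) (θ.trans hr1 (hθ _ _ c2))

end Pool.Agent.MWBN.H46
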